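import Pool.Agent.Helper31.LQ.Goals

/-!
# Invariance of the exponential expectation under permutations of the coordinates
-/

open MeasureTheory Set

namespace Pool.Agent.Helper22.LQ

theorem gXP : Pool.Agent.Helper31.LQ.XP := by
  intro m ρ P
  unfold Pool.Agent.Helper31.LQ.Ex
  have hmp := volume_measurePreserving_piCongrLeft (fun _ : Fin m => ℝ) ρ.symm
  have key : ∀ t : Fin m → ℝ,
      (MeasurableEquiv.piCongrLeft (fun _ : Fin m => ℝ) ρ.symm) t = fun a => t (ρ a) := by
    intro t
    funext a
    have h := Equiv.piCongrLeft_apply_apply (fun _ : Fin m => ℝ) ρ.symm t (ρ a)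
    rw [MeasurableEquiv.coe_piCongrLeft]
    rw [Equiv.symm_apply_apply] at h
    exact h
  have hset : (MeasurableEquiv.piCongrLeft (fun _ : Fin m => ℝ) ρ.symm) ⁻¹'
      (Pool.Agent.Helper31.LQ.pos m) = Pool.Agent.Helper31.LQ.pos m := by
    ext t
    simp only [mem_preimage, Pool.Agent.Helper31.LQ.pos, mem_setOf_eq, key]
    constructor
    · intro h a
      have := h (ρ.symm a)
      rwa [Equiv.apply_symm_apply] at this
    · intro h a
      exact h (ρ a)
  have h1 := hmp.setIntegral_preimage_emb
    (MeasurableEquiv.piCongrLeft (fun _ : Fin m => ℝ) ρ.symm).measurableEmbedding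
    (fun t => Real.exp (-∑ a, t a) * P t) (Pool.Agent.Helper31.LQ.pos m)
  rw [hset] at h1
  rw [← h1]
  refine integral_congr_ae (Filter.Eventually.of_forall fun t => ?_)
  simp only [key]
  rw [Equiv.sum_comp ρ t]

end Pool.Agent.Helper22.LQ
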